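import Pool.Agent.Y485.Escobar

/-!
# Escobar's conjecture on the first Steklov eigenvalue is false in dimension three

There is a smooth Riemannian metric `g` on (a neighbourhood of) the closed unit ball of `ℝ³` with
positive Ricci curvature, for which the second fundamental form of the boundary is larger than `g`
on all nonzero tangent vectors, and which has a Steklov eigenvalue `σ` with `0 < σ < 1`. So the
first nonzero Steklov eigenvalue is smaller than `1`, although `Ric > 0` and `ρ > 1`.

The metric is `g = adj (1 + ε b)` for an explicit family `b = b(ε, x)` of symmetric matrices, such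
that the coordinate `x₂` is an exact Steklov eigenfunction with the eigenvalue `1 / (1 + 197 ε)`,
and such that the first order terms in `ε` of the Ricci tensor on the ball and of `ρ - g` on the
boundary are positive definite. The latter are polynomial inequalities, verified through Bernstein
coefficients.
-/

set_option autoImplicit false

namespace Pool.Agent.Results.MP_08bb97_gt.EscobarFalse

open Pool.Agent.Y485
open scoped ContDiff

theorem result :
    ∃ (g : Met) (U : Set V3), IsOpen U ∧ ball3 ⊆ U ∧
      (∀ i j, ContDiffOn ℝ ∞ (fun x => g x i j) U) ∧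
      (∀ x ∈ U, (g x).PosDef) ∧
      (∀ x ∈ ball3, ∀ v : V3, v ≠ 0 → 0 < ∑ i, ∑ j, Ric g i j x * v i * v j) ∧
      (∀ x ∈ sph2, ∀ v : V3, v ≠ 0 → ∑ i, x i * v i = 0 →
        ∑ i, ∑ j, g x i j * v i * v j < sff g x v v) ∧
      ∃ σ : ℝ, 0 < σ ∧ σ < 1 ∧ IsSteklov g σ :=
  escobar_false

end Pool.Agent.Results.MP_08bb97_gt.EscobarFalse
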